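import Pool.Agent.Lib.MP_b76e55_an.Core

/-!
The `L₁`-distortion of the transportation cost space of a graph is at least linear in the girth.
-/

namespace Pool.Agent.Lib.MP_b76e55_an.Old.GirthBound

open Finset Pool.Agent.Lib.MP_b76e55_an

/-- The transportation cost norm for the shortest path metric of `G`. -/
noncomputable def tc {M : Type} [Fintype M] (G : SimpleGraph M) (μ : M → ℝ) : ℝ :=
  sInf {c : ℝ | ∃ a : M → M → ℝ, (∀ x y, 0 ≤ a x y) ∧ (∀ x, ∑ y, a x y - ∑ y, a y x = μ x) ∧
    c = ∑ x, ∑ y, a x y * (G.dist x y : ℝ)}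

section
variable {M : Type} [Fintype M] [DecidableEq M] {G : SimpleGraph M}

theorem le_tc [Nonempty M] {μ : M → ℝ} (hμ : ∑ x, μ x = 0) {f : M → ℝ}
    (hf : ∀ x y, f x - f y ≤ G.dist x y) : ∑ x, μ x * f x ≤ tc G μ := by
  obtain ⟨o⟩ := ‹Nonempty M›
  refine le_csInf ⟨_, fun x y => (if y = o then (μ x)⁺ else 0) + (if x = o then (μ y)⁻ else 0),
    fun x y => by positivity, fun x => ?_, rfl⟩ ?_
  · have h1 : ∑ y, (μ y)⁻ = ∑ y, (μ y)⁺ := by
      rw [← sub_eq_zero, ← neg_sub, ← sum_sub_distrib]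
      simp [hμ]
    by_cases h : x = o <;> simp [h, sum_add_distrib, h1]
    linarith [posPart_sub_negPart (μ o)]
  · rintro _ ⟨a, a1, a2, rfl⟩
    simp only [← a2, sub_mul, sum_mul, sum_sub_distrib]
    rw [sum_comm (f := fun x y => a y x * f x), ← sum_sub_distrib]
    refine sum_le_sum fun x _ => ?_
    rw [← sum_sub_distrib]
    exact sum_le_sum fun y _ => by
      rw [← mul_sub]; exact mul_le_mul_of_nonneg_left (hf x y) (a1 x y)

theorem tc_le (u v : M) : tc G (Pi.single u 1 - Pi.single v 1) ≤ G.dist u v := by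
  refine csInf_le ⟨0, ?_⟩ ⟨fun x y => if x = u ∧ y = v then 1 else 0, fun x y => by positivity,
    fun x => ?_, ?_⟩
  · rintro _ ⟨a, a1, -, rfl⟩
    exact sum_nonneg fun x _ => sum_nonneg fun y _ => mul_nonneg (a1 x y) (Nat.cast_nonneg _)
  · simp [ite_and, Pi.single_apply]
  · simp [ite_and]

end

theorem result (M : Type) [Fintype M] (G : SimpleGraph M) [DecidableRel G.Adj] (hG : G.Connected)
    (a : ℝ) (ha : 3 ≤ a) (hdeg : a * Fintype.card M ≤ ∑ v, G.degree v)
    (α : Type) [MeasurableSpace α] (ν : MeasureTheory.Measure α)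
    (F : (M → ℝ) → MeasureTheory.Lp ℝ 1 ν) (s D : ℝ) (hs : 0 < s) (hD : 1 ≤ D)
    (hF : ∀ u v : M → ℝ, ∑ x, u x = 0 → ∑ x, v x = 0 →
      s * tc G (u - v) ≤ ‖F u - F v‖ ∧ ‖F u - F v‖ ≤ s * D * tc G (u - v)) :
    G.girth * Real.log a ≤ 2400 * D * Real.log G.maxDegree := by
  classical
  have := hG.nonempty
  obtain ⟨o⟩ := hG.nonempty
  have n0 : (0 : ℝ) < Fintype.card M := by exact_mod_cast Fintype.card_pos
  have d0 : a ≤ G.maxDegree := by
    refine le_of_mul_le_mul_right (hdeg.trans ?_) n0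
    rw [← darts_univ]
    exact_mod_cast darts_card_le (G := G) univ
  have l0 : 0 < Real.log a := Real.log_pos (by linarith)
  have l1 : Real.log a ≤ Real.log G.maxDegree := Real.log_le_log (by linarith) d0
  have l2 : 0 < Real.log G.maxDegree := l0.trans_le l1
  set y := G.girth * Real.log a / Real.log G.maxDegree with hy
  rw [← div_le_iff₀ l2, ← hy]
  have y1 : y * Real.log G.maxDegree = G.girth * Real.log a := div_mul_cancel₀ _ l2.ne'
  rcases le_or_gt y 2400 with y2 | y2
  · linarith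
  have y3 : y ≤ G.girth := by
    rw [hy, div_le_iff₀ l2]
    exact mul_le_mul_of_nonneg_left l1 (Nat.cast_nonneg _)
  have y4 : 2400 ≤ G.girth := by exact_mod_cast y2.le.trans y3
  have y5 : (G.girth : ℝ) ≤ 3 * (G.girth / 2 - 1 : ℕ) := by exact_mod_cast (by omega)
  have r1 : (⌊y / 30⌋₊ : ℝ) ≤ y / 30 := Nat.floor_le (by linarith)
  have r2 : y / 30 < ⌊y / 30⌋₊ + 1 := Nat.lt_floor_add_one _
  generalize ⌊y / 30⌋₊ = r at r1 r2
  obtain ⟨V, X, p, q, Ed, C, c1, c2, c3, c4, c5, c6⟩ := core hG ha (by exact_mod_cast hdeg)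
    (r := r) (k := G.girth / 2 - 1) (by omega) (by
      have b0 : 3 ≤ G.maxDegree := by exact_mod_cast ha.trans d0
      have b1 : 2 * (G.maxDegree ^ 2 * (G.maxDegree + 1) ^ r) ≤ G.maxDegree ^ (3 + 2 * r) := by
        rw [pow_add, pow_mul, ← mul_assoc, pow_succ' _ 2]
        gcongr
        · omega
        · nlinarith
      refine le_trans (Nat.cast_le.2 b1) ?_
      have b2 : Real.log a ≤ 4 * Real.log (9 / 20 * a) := by
        have : a ≤ (9 / 20 * a) ^ 4 := by
          have := pow_le_pow_left₀ (by norm_num) ha 3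
          nlinarith
        simpa using Real.log_le_log (by linarith) this
      rw [Nat.cast_pow, ← Real.log_le_log_iff (by positivity) (by positivity), Real.log_pow,
        Real.log_pow]
      have b3 := mul_le_mul y5 b2 l0.le (by positivity)
      have b4 : ((3 + 2 * r : ℕ) : ℝ) ≤ y / 12 := by push_cast; linarith
      have b5 := mul_le_mul_of_nonneg_right b4 l2.le
      nlinarith)
  let W := LinearMap.ker (Fintype.linearCombination ℝ fun _ : M => (1 : ℝ))
  have hW : ∀ w : M → ℝ, w ∈ W ↔ ∑ x, w x = 0 := fun w => by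
    simp [W, Fintype.linearCombination_apply]
  let b : M → W := fun x => ⟨Pi.single x 1 - Pi.single o 1, (hW _).2 (by simp)⟩
  have key := linearize (fun w : W => F w.1) (fun w => tc G w.1) hs c1
    (fun z v => by simpa using (hF (z + v).1 z.1 ((hW _).1 (z + v).2) ((hW _).1 z.2)).1)
    (fun z v => by simpa using (hF (z + v).1 z.1 ((hW _).1 (z + v).2) ((hW _).1 z.2)).2)
    b X p q Ed (fun j => (r + 1) * (X j).card) (fun j L => by
      rcases (X j).eq_empty_or_nonempty with e | e
      · simpa [e] using le_tc (G := G) (μ := 0) (by simp) (f := 0) (by simp)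
      let f : M → ℝ := fun z => (X j).inf' e fun x => (G.dist z (q j x) : ℝ)
      refine le_trans ?_ (le_tc ((hW _).1 (Subtype.property _)) (f := f) fun z w => ?_)
      · have b1 : ∀ x ∈ X j, (r + 1 : ℝ) ≤ f (p j x) - f (q j x) := fun x hx => by
          have e1 : (r + 1 : ℝ) ≤ f (p j x) :=
            le_inf' _ _ fun w hw => by exact_mod_cast c3 j x hx w hw
          have e2 : f (q j x) ≤ 0 := (inf'_le _ hx).trans (by simp)
          linarith
        have b2 := card_nsmul_le_sum _ _ _ b1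
        simp only [b, Submodule.coe_smul_of_tower, Submodule.coe_sum, Submodule.coe_sub,
          sub_sub_sub_cancel_right, Pi.smul_apply, Finset.sum_apply, nsmul_eq_mul, mul_assoc,
          ← mul_sum, sum_mul] at b2 ⊢
        rw [sum_comm]
        refine mul_le_mul_of_nonneg_left ?_ (Nat.cast_nonneg _)
        simpa [sub_mul, Pi.single_apply, mul_comm] using b2
      · obtain ⟨x, hx, e1⟩ := exists_mem_eq_inf' e fun x => (G.dist w (q j x) : ℝ)
        have e2 : f z ≤ G.dist z (q j x) := inf'_le _ hx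
        have e3 : (G.dist z (q j x) : ℝ) ≤ G.dist z w + G.dist w (q j x) := by
          exact_mod_cast hG.dist_triangle
        simp only [f] at e2 ⊢
        linarith)
    (l1_of_real X p q Ed c6)
  have k1 : ∑ e ∈ Ed, tc G (b e.1 - b e.2).1 ≤ Ed.card := by
    refine (sum_le_card_nsmul _ _ 1 fun e he => ?_).trans (by simp)
    simpa [b, SimpleGraph.dist_eq_one_iff_adj.2 (c2 e he)] using tc_le (G := G) e.1 e.2
  rw [← mul_sum] at key
  have k2 := mul_le_mul_of_nonneg_left
    (mul_le_mul_of_nonneg_left k1 (by linarith : 0 ≤ D)) c1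
  have k3 := mul_le_mul_of_nonneg_left c5 (by linarith : 0 ≤ D)
  have k4 : (r + 1 : ℝ) ≤ 80 * D := le_of_mul_le_mul_right (by nlinarith) c4
  linarith

end Pool.Agent.Lib.MP_b76e55_an.Old.GirthBound
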