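import Pool.Agent.Lib.MP_b76e55_an.VtC

/-!
Vertex-transitive graphs: if the transportation cost space embeds into `L₁` with distortion `D` and
the automorphism group has at most `k` orbits on edges, the graph embeds into convex combinations of
dominating tree metrics with distortion `exp (C k D)`.
-/

namespace Pool.Agent.Lib.MP_b76e55_an.Old.Transitive

open Finset Pool.Agent.Lib.MP_b76e55_an

/-- The transportation cost norm. -/
noncomputable def tc {M : Type} [Fintype M] [MetricSpace M] (μ : M → ℝ) : ℝ :=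
  sInf {c : ℝ | ∃ a : M → M → ℝ, (∀ x y, 0 ≤ a x y) ∧ (∀ x, ∑ y, a x y - ∑ y, a y x = μ x) ∧
    c = ∑ x, ∑ y, a x y * dist x y}

section
variable {M : Type} [Fintype M] [DecidableEq M] [MetricSpace M]

theorem le_tc [Nonempty M] (μ : M → ℝ) (hμ : ∑ x, μ x = 0) (f : M → ℝ)
    (hf : ∀ x y, f x - f y ≤ dist x y) : ∑ x, μ x * f x ≤ tc μ := by
  obtain ⟨o⟩ := ‹Nonempty M›
  refine le_csInf ⟨_, fun x y => (if y = o then (μ x)⁺ else 0) + (if x = o then (μ y)⁻ else 0),
    fun x y => by positivity, fun x => ?_, rfl⟩ ?_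
  · have h1 : ∑ y, (μ y)⁻ = ∑ y, (μ y)⁺ := by
      rw [← sub_eq_zero, ← neg_sub, ← sum_sub_distrib]
      simp [hμ]
    by_cases h : x = o <;> simp [h, sum_add_distrib, h1]
    linarith [posPart_sub_negPart (μ o)]
  · rintro _ ⟨a, a1, a2, rfl⟩
    simp only [← a2, sub_mul, sum_mul, sum_sub_distrib]
    rw [sum_comm (f := fun x y => a y x * f x), ← sum_sub_distrib]
    refine sum_le_sum fun x _ => ?_
    rw [← sum_sub_distrib]
    exact sum_le_sum fun y _ => by
      rw [← mul_sub]; exact mul_le_mul_of_nonneg_left (hf x y) (a1 x y)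

theorem tc_le (u v : M) : tc (Pi.single u 1 - Pi.single v 1 : M → ℝ) ≤ dist u v := by
  refine csInf_le ⟨0, ?_⟩ ⟨fun x y => if x = u ∧ y = v then 1 else 0, fun x y => by positivity,
    fun x => ?_, ?_⟩
  · rintro _ ⟨a, a1, -, rfl⟩
    exact sum_nonneg fun x _ => sum_nonneg fun y _ => mul_nonneg (a1 x y) dist_nonneg
  · simp [ite_and, Pi.single_apply]
  · simp [ite_and]

end

theorem result : ∃ C : ℝ, ∀ (M : Type) [Fintype M] [MetricSpace M] (G : SimpleGraph M),
    G.Connected → (∀ x y : M, dist x y = G.dist x y) → (∀ x y : M, ∃ φ : G ≃g G, φ x = y) →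
    ∀ E : Finset (Sym2 M), (∀ e ∈ G.edgeSet, ∃ e' ∈ E, ∃ φ : G ≃g G, e'.map φ = e) →
    ∀ (α : Type) [MeasurableSpace α] (ν : MeasureTheory.Measure α)
      (F : (M → ℝ) → MeasureTheory.Lp ℝ 1 ν) (s D : ℝ), 0 < s → 1 ≤ D →
      (∀ u v : M → ℝ, ∑ x, u x = 0 → ∑ x, v x = 0 →
        s * tc (u - v) ≤ ‖F u - F v‖ ∧ ‖F u - F v‖ ≤ s * D * tc (u - v)) →
      ∃ (n : ℕ) (w : Fin n → ℝ) (t : Fin n → M → M → ℝ), (∀ i, 0 ≤ w i) ∧ ∑ i, w i = 1 ∧
        (∀ i x, t i x x = 0) ∧ (∀ i x y, t i x y = t i y x) ∧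
        (∀ i x y z u, t i x y + t i z u ≤ max (t i x z + t i y u) (t i x u + t i y z)) ∧
        (∀ i x y, dist x y ≤ t i x y) ∧
        ∀ x y, ∑ i, w i * t i x y ≤ Real.exp (C * E.card * D) * dist x y := by
  classical
  obtain ⟨C, h⟩ := Vt.vt_tree
  refine ⟨max C 0, fun M _ _ G hG hd hT E hE α _ ν F s D hs hD hF => ?_⟩
  have := hG.nonempty
  obtain ⟨κ, hκ⟩ := exists_cuts tc le_tc tc_le F hs (by linarith) hF
  have : Finite (G ≃g G) := Finite.of_injective _ RelIso.toEquiv_injective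
  have := Fintype.ofFinite (G ≃g G)
  obtain ⟨t, ⟨t1, t2, t3, t4⟩, t5⟩ := h M G hG hT hd (E.image Quot.out) (fun x y e => by
    obtain ⟨u, u1, φ, u2⟩ := hE s(x, y) e
    refine ⟨_, mem_image_of_mem _ u1, φ, ?_⟩
    rw [← Quot.out_eq u] at u2
    exact Sym2.eq_iff.1 u2) κ D hD hκ
  let e := (Fintype.equivFin (G ≃g G)).symm
  have g0 : (0 : ℝ) < Fintype.card (G ≃g G) := by exact_mod_cast Fintype.card_pos
  refine ⟨_, fun _ => (Fintype.card (G ≃g G) : ℝ)⁻¹, fun i x y => t (e i x) (e i y),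
    fun _ => by positivity, by simp, fun i x => t1 _, fun i x y => t2 _ _,
    fun i x y z u => t3 _ _ _ _, fun i x y => ?_, fun x y => ?_⟩
  · rw [hd, ← Vt.iso_dist hG (e i)]
    exact t4 _ _
  · rw [← mul_sum, Equiv.sum_comp e fun φ => t (φ x) (φ y), inv_mul_le_iff₀ g0, hd]
    refine (t5 x y).trans ?_
    rw [mul_comm, mul_assoc]
    gcongr
    · exact le_max_left _ _
    · exact card_image_le

end Pool.Agent.Lib.MP_b76e55_an.Old.Transitive
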